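import Pool.Agent.R419.KF.Sum
import Pool.Agent.R419.CE.Pd

/-!
# Project KF: elements and pairs of sets of primes
-/

set_option autoImplicit false

open scoped Classical

namespace Pool.Agent.R419.KF

open Finset
open Pool.Agent.Y692.QS (Ei nr)
open Pool.Agent.Y715.T.Rec (cs)
open Pool.Agent.Y715.T.RecG (Pq)
open Pool.Agent.Y715.T.Gi (CF)
open Pool.Agent.Y699.E
open Pool.Agent.Y703.CT (Dt pD Ker)
open Pool.Agent.Y703.XK (c9 S_EQ S_LA S_BIL S_C9 S_LOW)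
open Pool.Agent.Y433.XK (pN)
open Pool.Agent.Y550.XK.NS (mod_iff)

/-- the class -/
def ClsC (D : Ei) : Prop := (3 : Ei) ∣ D - 1 ∧ CF D ∧ ¬ (9 : ℤ) ∣ nr D - 1

/-- the element of a pair -/
noncomputable def el (M S : Finset Ei) : Ei := (∏ π ∈ S, π) * ∏ π ∈ M, π

theorem el_ne {M S : Finset Ei} (hS : ∀ q ∈ S, Pq q) (hM : M ⊆ S) : el M S ≠ 0 :=
  mul_ne_zero (PS_prod hS).1.ne (PS_prod fun q hq => hS q (hM hq)).1.ne

theorem el_prm {M S : Finset Ei} (hS : ∀ q ∈ S, Pq q) (hM : M ⊆ S) : prm (el M S) :=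
  prm_mul (PS_prod hS).1.prm (PS_prod fun q hq => hS q (hM hq)).1.prm

theorem nrm_el (M S : Finset Ei) : nrm (el M S) = (∏ π ∈ S, nrm π) * ∏ π ∈ M, nrm π := by
  unfold el
  rw [nrm_mul, nrm_prod, nrm_prod]

theorem PD_el {M S : Finset Ei} (hS : ∀ q ∈ S, Pq q) (hM : M ⊆ S) : PD (el M S) = S := by
  ext q
  rw [mem_PD (el_ne hS hM)]
  constructor
  · rintro ⟨h1, h2⟩
    have h3 : ∀ T : Finset Ei, T ⊆ S → q ∣ ∏ π ∈ T, π → q ∈ S := by
      intro T hT h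
      obtain ⟨π, hπ, h4⟩ := (h1.prime.dvd_finsetProd_iff _).1 h
      rw [eq_of_dvd h1 (hS π (hT hπ)) h4]
      exact hT hπ
    rcases h1.prime.dvd_or_dvd h2 with h | h
    · exact h3 S (subset_refl _) h
    · exact h3 M hM h
  · intro h
    exact ⟨hS q h, (dvd_prod_of_mem (fun π => π) h).mul_right _⟩

theorem el_inj {M S M' S' : Finset Ei} (hS : ∀ q ∈ S, Pq q) (hM : M ⊆ S)
    (hS' : ∀ q ∈ S', Pq q) (hM' : M' ⊆ S') (h : el M S = el M' S') : M = M' ∧ S = S' := by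
  have h1 : S = S' := by rw [← PD_el hS hM, h, PD_el hS' hM']
  subst h1
  have h2 : ∏ π ∈ M, π = ∏ π ∈ M', π := by
    unfold el at h
    exact mul_left_cancel₀ (PS_prod hS).1.ne h
  refine ⟨?_, rfl⟩
  rw [← (PS_prod fun q hq => hS q (hM hq)).2, h2, (PS_prod fun q hq => hS q (hM' hq)).2]

theorem cf_el {M S : Finset Ei} (hS : ∀ q ∈ S, Pq q) (hM : M ⊆ S) : CF (el M S) := by
  refine ⟨el_ne hS hM, fun x hx => ?_⟩
  by_contra hnu
  have hx0 : x ≠ 0 := by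
    rintro rfl
    rw [zero_pow (by norm_num), zero_dvd_iff] at hx
    exact el_ne hS hM hx
  obtain ⟨ρ, hρ, hρx⟩ := WfDvdMonoid.exists_irreducible_factor hnu hx0
  have hρ' : Prime ρ := irreducible_iff_prime.1 hρ
  have h1 : ρ ^ 3 ∣ el M S := (pow_dvd_pow_of_dvd hρx 3).trans hx
  have h2 : ¬ ρ * ρ ∣ ∏ π ∈ S, π := fun h => hρ'.not_isUnit ((PS_prod hS).1.sqf _ h)
  have h3 : ¬ ρ * ρ ∣ ∏ π ∈ M, π := fun h =>
    hρ'.not_isUnit ((PS_prod fun q hq => hS q (hM hq)).1.sqf _ h)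
  unfold el at h1
  have h4 : ρ ^ 3 = ρ * ρ * ρ := by ring
  by_cases h5 : ρ ∣ ∏ π ∈ S, π
  · obtain ⟨c, hc⟩ := h5
    have h6 : ρ * ρ ∣ c * ∏ π ∈ M, π := by
      rw [hc, h4] at h1
      have h7 : ρ * (ρ * ρ) ∣ ρ * (c * ∏ π ∈ M, π) := by
        convert h1 using 1 <;> ring
      exact (mul_dvd_mul_iff_left hρ'.ne_zero).1 h7
    have h7 : ¬ ρ ∣ c := fun h => h2 (by rw [hc]; exact mul_dvd_mul_left _ h)
    have h8 : ρ ∣ ∏ π ∈ M, π := (hρ'.dvd_or_dvd ((dvd_mul_right ρ ρ).trans h6)).resolve_left h7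
    obtain ⟨d, hd⟩ := h8
    rw [hd] at h6
    have h9 : ρ * ρ ∣ ρ * (c * d) := by
      convert h6 using 1
      ring
    have h10 := (mul_dvd_mul_iff_left hρ'.ne_zero).1 h9
    have h11 := (hρ'.dvd_or_dvd h10).resolve_left h7
    exact h3 (by rw [hd]; exact mul_dvd_mul_left _ h11)
  · have h6 := (hρ'.pow_dvd_of_dvd_mul_left 3 h5 h1)
    exact h3 ((by rw [h4]; exact dvd_mul_right _ _ : ρ * ρ ∣ ρ ^ 3).trans h6)

/-- the pair of an element -/
theorem ex_pair {D : Ei} (h3 : prm D) (hcf : CF D) :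
    ∃ M S : Finset Ei, (∀ q ∈ S, Pq q) ∧ M ⊆ S ∧ D = el M S := by
  have hn : D ≠ 0 := prm_ne_zero h3
  have hPDq : ∀ q ∈ PD D, Pq q := fun q hq => ((mem_PD hn).1 hq).1
  have h1 : (∏ π ∈ PD D, π) ∣ D := by
    refine Finset.prod_dvd_of_coprime ?_ ?_
    · intro π hπ ρ hρ hne
      exact pq_cop ((mem_PD hn).1 hπ).1 ((mem_PD hn).1 hρ).1 hne
    · intro π hπ
      exact ((mem_PD hn).1 hπ).2
  obtain ⟨Q, hQ⟩ := h1
  have hP : prm (∏ π ∈ PD D, π) := prm_prod fun π hπ => (hPDq π hπ).three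
  have hQp : prm Q := prm_cancel hP (by rw [← hQ]; exact h3)
  have hQD : Q ∣ D := by
    rw [hQ]
    exact dvd_mul_left _ _
  have hQs : PS Q := by
    refine ⟨hQp, fun x hx => ?_⟩
    by_contra hnu
    have hx0 : x ≠ 0 := by
      rintro rfl
      rw [zero_mul, zero_dvd_iff] at hx
      exact prm_ne_zero hQp hx
    obtain ⟨ρ, hρ, hρx⟩ := WfDvdMonoid.exists_irreducible_factor hnu hx0
    have hρ' : Prime ρ := irreducible_iff_prime.1 hρ
    have h4 : ρ ∣ Q := hρx.trans ((dvd_mul_right x x).trans hx)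
    have h2 : ρ ∣ D := h4.trans hQD
    obtain ⟨π, hπ, hass⟩ := exists_PP hρ' (not_dvd_three hρ' h2 h3)
    have h5 : π ∈ PD D := (mem_PD hn).2 ⟨hπ, hass.dvd.trans h2⟩
    have h6 : π ^ 3 ∣ D := by
      have e : π ^ 3 = π * (π * π) := by ring
      rw [hQ, e]
      exact mul_dvd_mul (Finset.dvd_prod_of_mem _ h5)
        ((mul_dvd_mul (hass.dvd.trans hρx) (hass.dvd.trans hρx)).trans hx)
    exact hπ.prime.not_isUnit (hcf.2 π h6)
  refine ⟨PD Q, PD D, hPDq, ?_, ?_⟩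
  · intro q hq
    obtain ⟨h4, h5⟩ := (mem_PD hQs.ne).1 hq
    exact (mem_PD hn).2 ⟨h4, h5.trans hQD⟩
  · unfold el
    rw [hQs.prod]
    exact hQ

theorem cls_el {M S : Finset Ei} (hS : ∀ q ∈ S, Pq q) (hM : M ⊆ S) :
    ClsC (el M S) ↔ ClW M S := by
  unfold ClsC ClW
  rw [mod_iff, nrm_el]
  constructor
  · rintro ⟨-, -, h⟩
    exact ⟨hS, hM, h⟩
  · rintro ⟨-, -, h⟩
    exact ⟨el_prm hS hM, cf_el hS hM, h⟩

/-- the count -/
theorem card_eq (X : ℕ) (R : Finset Ei → Finset Ei → Prop) (T : Ei → Prop)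
    (hT : ∀ M S : Finset Ei, ClW M S → (T (el M S) ↔ R M S)) :
    {D : Ei | nr D ≤ X ∧ ClsC D ∧ T D}.ncard =
      ∑ M ∈ SG X, ((SW M (X / pN M)).filter (R M)).card := by
  rw [← card_sigma]
  have h1 : {D : Ei | nr D ≤ X ∧ ClsC D ∧ T D} =
      (fun p : (Σ _ : Finset Ei, Finset Ei) => el p.1 p.2) ''
        (((SG X).sigma fun M => (SW M (X / pN M)).filter (R M) :
          Finset (Σ _ : Finset Ei, Finset Ei)) : Set (Σ _ : Finset Ei, Finset Ei)) := by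
    ext D
    constructor
    · rintro ⟨h1, h2, h3⟩
      obtain ⟨M, S, hS, hM, rfl⟩ := ex_pair h2.1 h2.2.1
      have h4 : nrm (el M S) ≤ X := by
        rw [← nrm_cast] at h1
        exact_mod_cast h1
      have hM' : ∀ q ∈ M, Pq q := fun q hq => hS q (hM hq)
      have h5 := (cls_el hS hM).1 h2
      refine ⟨⟨M, S⟩, ?_, rfl⟩
      rw [mem_coe, mem_sigma]
      rw [nrm_el] at h4
      refine ⟨mem_SG.2 ⟨hM', ?_⟩, mem_filter.2 ⟨mem_SW.2 ⟨h5, ?_⟩, (hT M S h5).1 h3⟩⟩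
      · exact (Nat.le_mul_of_pos_left _ (prod_ppos hS)).trans h4
      · rw [Nat.le_div_iff_mul_le (Pool.Agent.Y433.XK.pN_pos hM')]
        exact h4
    · rintro ⟨⟨M, S⟩, hp, rfl⟩
      rw [mem_coe, mem_sigma] at hp
      obtain ⟨h2, h3⟩ := hp
      have hM' := (mem_SG.1 h2).1
      obtain ⟨h4, h5⟩ := mem_filter.1 h3
      obtain ⟨h6, h7⟩ := mem_SW.1 h4
      refine ⟨?_, (cls_el h6.1 h6.2.1).2 h6, (hT M S h6).2 h5⟩
      rw [Nat.le_div_iff_mul_le (Pool.Agent.Y433.XK.pN_pos hM')] at h7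
      rw [← nrm_cast]
      show ((nrm (el M S) : ℕ) : ℤ) ≤ X
      rw [nrm_el]
      exact_mod_cast h7
  rw [h1, Set.ncard_image_of_injOn, Set.ncard_coe_finset]
  rintro ⟨M, S⟩ hp ⟨M', S'⟩ hp' h
  rw [mem_coe, mem_sigma] at hp hp'
  have h2 := (mem_SW.1 (mem_filter.1 hp.2).1).1
  have h3 := (mem_SW.1 (mem_filter.1 hp'.2).1).1
  obtain ⟨h4, h5⟩ := el_inj h2.1 h2.2.1 h3.1 h3.2.1 h
  simp only at h4 h5
  subst h4
  subst h5
  rfl

theorem card_cls (X : ℕ) : {D : Ei | nr D ≤ X ∧ ClsC D}.ncard = Nt X := by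
  have h := card_eq X (fun _ _ => True) (fun _ => True) fun _ _ _ => Iff.rfl
  unfold Nt
  simp only [and_true, Finset.filter_true] at h
  exact h

/-- the proportion -/
theorem t_PR (h1 : S_BIL) (h3 : S_EQ) (h4 : S_LA) (hc9 : S_C9) (hLo : S_LOW) (T : Ei → Prop)
    (hT : ∀ M S : Finset Ei, ClW M S → (T (el M S) ↔ GdW M S)) :
    Filter.Tendsto (fun X : ℕ => ({D : Ei | nr D ≤ X ∧ ClsC D ∧ T D}.ncard : ℝ) /
      ({D : Ei | nr D ≤ X ∧ ClsC D}.ncard : ℝ)) Filter.atTop (nhds c9) := by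
  refine (t_TOT h1 h3 h4 hc9 hLo).congr fun X => ?_
  rw [card_cls, card_eq X GdW T hT]
  rfl

/-! ### The data of a pair -/

theorem data {M S : Finset Ei} (h : ClW M S) :
    ∃ (n : ℕ) (π : Fin (n + 1) → Ei) (e : Fin (n + 1) → ZMod 3), Dt π e ∧ el M S = pD π e ∧
      (GdW M S ↔ Ker π e) := by
  obtain ⟨hS, hM, h9⟩ := h
  have hne : S.card ≠ 0 := by
    intro h0
    rw [card_eq_zero] at h0
    subst h0
    rw [subset_empty] at hM
    subst hM
    rw [prod_empty] at h9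
    exact h9 rfl
  obtain ⟨n, hn⟩ := Nat.exists_eq_succ_of_ne_zero hne
  set eq : S ≃ Fin (n + 1) := S.equivFinOfCardEq hn with heq
  set π : Fin (n + 1) → Ei := fun i => (eq.symm i : Ei) with hπ
  have hmem : ∀ i, π i ∈ S := fun i => (eq.symm i).2
  have hinj : Function.Injective π := fun a b hab => eq.symm.injective (Subtype.ext hab)
  have himg : Finset.univ.image π = S := by
    ext q
    rw [mem_image]
    constructor
    · rintro ⟨i, -, rfl⟩
      exact hmem i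
    · intro hq
      refine ⟨eq ⟨q, hq⟩, mem_univ _, ?_⟩
      simp [hπ]
  have hsum : ∀ (f : Ei → ZMod 3), ∑ q ∈ S, f q = ∑ i, f (π i) := by
    intro f
    rw [← himg, sum_image fun a _ b _ h => hinj h]
  refine ⟨n, π, fun i => wt M (π i), ⟨fun i => hS _ (hmem i), fun i j hij hd => ?_,
    fun i => wt_ne M _⟩, ?_, ?_⟩
  · exact hij (hinj (eq_of_dvd (hS _ (hmem j)) (hS _ (hmem i)) hd)).symm
  · unfold pD el
    have h2 : ∏ q ∈ S, q ^ (wt M q).val = ∏ i, π i ^ (wt M (π i)).val := by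
      rw [← himg, prod_image fun a _ b _ h => hinj h]
    rw [← h2]
    have h4 : ∏ q ∈ M, q = ∏ q ∈ S, if q ∈ M then q else 1 := by
      rw [prod_ite_mem, inter_eq_right.2 hM]
    rw [h4, ← prod_mul_distrib]
    refine prod_congr rfl fun q _ => ?_
    unfold wt
    split_ifs with hq
    · have : (2 : ZMod 3).val = 2 := by decide
      rw [this, pow_two]
    · have : (1 : ZMod 3).val = 1 := by decide
      rw [this, pow_one, mul_one]
  · unfold GdW SolW Ker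
    constructor
    · intro hg v hv i j
      have h2 := hg (fun q => if hq : q ∈ S then v (eq ⟨q, hq⟩) else 0) (fun q hq => ?_)
        (π i) (hmem i) (π j) (hmem j)
      · simpa [hπ] using h2
      · obtain ⟨j, rfl⟩ : ∃ j, π j = q := by
          rw [← himg, mem_image] at hq
          obtain ⟨j, -, hj⟩ := hq
          exact ⟨j, hj⟩
        rw [hsum]
        have h3 := hv j
        simpa [hπ] using h3
    · intro hk v hv q hq r hr
      rw [← himg, mem_image] at hq hr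
      obtain ⟨i, -, rfl⟩ := hq
      obtain ⟨j, -, rfl⟩ := hr
      refine hk (fun i => v (π i)) (fun j => ?_) i j
      have h3 := hv (π j) (hmem j)
      rw [hsum] at h3
      exact h3

end Pool.Agent.R419.KF
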