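import Pool.Agent.R419.KF.Rk
import Pool.Agent.R419.KF.NS

/-!
# Project KF: the criterion over the ring of integers of `ℚ(ω)`

Adapted from the file `Y696/CTK/Crit.lean` (squarefree `D`).
-/

set_option autoImplicit false
set_option linter.unusedVariables false
set_option linter.unusedSectionVars false

open scoped Classical

namespace Pool.Agent.R419.KF

open NumberField IsDedekindDomain WeierstrassCurve WithZero
open Pool.Agent.Y692.QS (Ei w toC)
open Pool.Agent.Y715.T.RecG (Pq)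
open Pool.Agent.Y715.T.Gi (CF)
open Pool.Agent.Y703.CT
open Pool.Agent.Y715.T.Rec (cs nn)
open Pool.Agent.Y696.CTK
open Pool.Agent.R419.CE (val_ne)

/-- the kernel of the weighted Laplacian consists of the constants -/
def LapE {n : ℕ} (e : Fin n → ZMod 3) (χ : Fin n → Fin n → ZMod 3) : Prop :=
  ∀ v : Fin n → ZMod 3, (∀ j, ∑ i, e i * χ j i * (v i - v j) = 0) → ∀ i j, v i = v j

/-- `D` is the product of the powers `π i ^ e i`, `e i = 1, 2`, of the different primary primes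
`π i`, and `(π i / π j)_3 = ω ^ χ j i` -/
def IsFactE {K : Type} [Field K] [NumberField K] (ω D : 𝓞 K) (n : ℕ) (π : Fin n → 𝓞 K)
    (e : Fin n → ZMod 3) (χ : Fin n → Fin n → ZMod 3) : Prop :=
  (∀ i, Prime (π i) ∧ (3 : 𝓞 K) ∣ π i - 1 ∧ e i ≠ 0) ∧ D = ∏ i, π i ^ (e i).val ∧
  ∀ i j, i ≠ j → ¬ π j ∣ π i ∧
    π j ∣ π i ^ (((Algebra.norm ℤ (π j)).natAbs - 1) / 3) - ω ^ (χ j i).val

/-- cube-free, `1` modulo `3`, with norm not `1` modulo `9` -/
def ClsKC {K : Type} [Field K] [NumberField K] (D : 𝓞 K) : Prop :=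
  (3 : 𝓞 K) ∣ D - 1 ∧ (∀ x : 𝓞 K, x ^ 3 ∣ D → IsUnit x) ∧ ¬ (9 : ℤ) ∣ Algebra.norm ℤ D - 1

variable {K : Type} [Field K] [NumberField K] (j : Ei ≃+* 𝓞 K)

/-- the factorization as data `Dt` -/
lemma fact_dt {ω D : 𝓞 K} {n : ℕ} {π : Fin n → 𝓞 K} {e : Fin n → ZMod 3}
    {χ : Fin n → Fin n → ZMod 3} (h : IsFactE ω D n π e χ) :
    Dt (fun i => j.symm (π i)) e ∧ pD (fun i => j.symm (π i)) e = j.symm D := by
  obtain ⟨h1, h2, h3⟩ := h
  refine ⟨⟨fun i => pq_symm j (h1 i).1 (h1 i).2.1, fun i k hik hd => ?_, fun i => (h1 i).2.2⟩, ?_⟩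
  · exact (h3 i k hik).1 ((map_dvd_iff j.symm).1 hd)
  · unfold pD
    rw [h2, map_prod]
    simp only [map_pow]

/-- the kernels -/
lemma ker_iff (hj : ∀ z : Ei, Algebra.norm ℤ (j z) = Pool.Agent.Y692.QS.nr z)
    {ω D : 𝓞 K} {n : ℕ} {π : Fin n → 𝓞 K} {e : Fin n → ZMod 3} {χ : Fin n → Fin n → ZMod 3}
    (hω : ω ^ 2 + ω + 1 = 0) (h : IsFactE ω D n π e χ) :
    Ker (fun i => j.symm (π i)) e ↔ LapE e χ := by
  obtain ⟨h1, h2, h3⟩ := h
  obtain ⟨ε, hε, hcs⟩ : ∃ ε : ZMod 3, ε ≠ 0 ∧ ∀ i k, i ≠ k →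
      cs (j.symm (π k)) (j.symm (π i)) = ε * χ k i := by
    have hnn : ∀ k, nn (j.symm (π k)) = ((Algebra.norm ℤ (π k)).natAbs - 1) / 3 := by
      intro k
      unfold nn
      rw [← hj, RingEquiv.apply_symm_apply]
    have hww : (w : Ei) ^ 2 + w + 1 = 0 := by decide
    have hfac : (ω - j w) * (ω - j (w ^ 2)) = 0 := by
      have e1 : (w : Ei) ^ 2 = -w - 1 := by linear_combination hww
      rw [e1, map_sub, map_neg, map_one]
      have e2 : (j w) ^ 2 + j w + 1 = 0 := by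
        rw [← map_pow, ← map_one j, ← map_add, ← map_add, hww, map_zero]
      linear_combination hω - e2
    rcases mul_eq_zero.1 hfac with h4 | h4
    · refine ⟨1, one_ne_zero, fun i k hik => ?_⟩
      rw [one_mul]
      have hpq := pq_symm j (h1 k).1 (h1 k).2.1
      apply Pool.Agent.Y715.T.RecG.cs_of hpq.prime hpq.norm
      have h5 := map_dvd j.symm (h3 i k hik).2
      rw [sub_eq_zero.1 h4, map_sub, map_pow, map_pow, RingEquiv.symm_apply_apply, ← hnn k] at h5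
      exact h5
    · refine ⟨-1, by decide, fun i k hik => ?_⟩
      rw [neg_one_mul]
      have hpq := pq_symm j (h1 k).1 (h1 k).2.1
      apply Pool.Agent.Y715.T.RecG.cs_of hpq.prime hpq.norm
      have h5 := map_dvd j.symm (h3 i k hik).2
      rw [sub_eq_zero.1 h4, map_sub, map_pow, map_pow, RingEquiv.symm_apply_apply, ← hnn k,
        w_two] at h5
      exact h5
  have key : ∀ (v : Fin n → ZMod 3) (k : Fin n),
      ∑ i, e i * cs (j.symm (π k)) (j.symm (π i)) * (v i - v k) =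
        ε * ∑ i, e i * χ k i * (v i - v k) := by
    intro v k
    rw [Finset.mul_sum]
    refine Finset.sum_congr rfl fun i _ => ?_
    by_cases hik : i = k
    · rw [hik, sub_self, mul_zero, mul_zero, mul_zero]
    · rw [hcs i k hik]
      ring
  unfold Ker LapE
  simp only [key, mul_eq_zero, hε, false_or]

lemma cf_iff (D : Ei) : (D ≠ 0 ∧ ∀ x : 𝓞 K, x ^ 3 ∣ j D → IsUnit x) ↔ CF D := by
  constructor
  · rintro ⟨h0, h⟩
    refine ⟨h0, fun x hx => ?_⟩
    have h1 := h (j x) (by rw [← map_pow]; exact map_dvd j hx)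
    exact (MulEquiv.isUnit_map j).1 h1
  · rintro ⟨h0, h⟩
    refine ⟨h0, fun x hx => ?_⟩
    obtain ⟨y, rfl⟩ := j.surjective x
    rw [← map_pow, map_dvd_iff j] at hx
    exact (h y hx).map j

lemma clsC_iff (hj : ∀ z : Ei, Algebra.norm ℤ (j z) = Pool.Agent.Y692.QS.nr z) (D : Ei) :
    ClsKC (j D) ↔ ClsC D := by
  have e1 : (3 : 𝓞 K) ∣ j D - 1 ↔ (3 : Ei) ∣ D - 1 := by
    have : j D - 1 = j (D - 1) := by rw [map_sub, map_one]
    rw [this, ← map_ofNat j 3, map_dvd_iff j]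
  unfold ClsKC ClsC
  rw [e1, hj]
  constructor
  · rintro ⟨h1, h2, h3⟩
    exact ⟨h1, (cf_iff j D).1 ⟨Pool.Agent.Y699.E.prm_ne_zero h1, h2⟩, h3⟩
  · rintro ⟨h1, h2, h3⟩
    exact ⟨h1, ((cf_iff j D).2 h2).2, h3⟩

/-- there is a factorization -/
lemma fact_ex (hj : ∀ z : Ei, Algebra.norm ℤ (j z) = Pool.Agent.Y692.QS.nr z) {n : ℕ}
    {π : Fin n → Ei} {e : Fin n → ZMod 3} (hdt : Dt π e) :
    ∃ (ω : 𝓞 K) (χ : Fin n → Fin n → ZMod 3),
      ω ^ 2 + ω + 1 = 0 ∧ IsFactE ω (j (pD π e)) n (fun i => j (π i)) e χ := by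
  refine ⟨j w, fun k i => cs (π k) (π i), ?_, fun i => ⟨?_, ?_, hdt.e0 i⟩, ?_, fun i k hik =>
    ⟨fun hd => hdt.nd i k hik ((map_dvd_iff j).1 hd), ?_⟩⟩
  · have hww : (w : Ei) ^ 2 + w + 1 = 0 := by decide
    rw [← map_pow, ← map_one j, ← map_add, ← map_add, hww, map_zero]
  · exact (MulEquiv.prime_iff (j : Ei ≃* 𝓞 K)).2 (hdt.pq i).prime
  · have h1 := map_dvd j (hdt.pq i).three
    rwa [map_sub, map_one, map_ofNat] at h1
  · unfold pD
    rw [map_prod]
    simp only [map_pow]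
  · have h1 := map_dvd j (Pool.Agent.Y715.T.RecG.cs_spec (hdt.pq k).prime (hdt.pq k).norm
      (hdt.nd i k hik))
    rw [map_sub, map_pow, map_pow] at h1
    rw [hj]
    exact h1

/-- the criterion -/
theorem crit (P : Parts) (hj : ∀ z : Ei, Algebra.norm ℤ (j z) = Pool.Agent.Y692.QS.nr z)
    {ω D : 𝓞 K} (h9 : ¬ (9 : ℤ) ∣ Algebra.norm ℤ D - 1) (hω : ω ^ 2 + ω + 1 = 0) {n : ℕ}
    {π : Fin n → 𝓞 K} {e : Fin n → ZMod 3}
    {χ : Fin n → Fin n → ZMod 3} (h : IsFactE ω D n π e χ) : Tri D ↔ LapE e χ := by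
  obtain ⟨h1, h2⟩ := fact_dt j h
  have hn : Nonempty (Fin n) := by
    rw [← not_isEmpty_iff]
    intro hn
    apply h9
    rw [h.2.1, Finset.univ_eq_empty, Finset.prod_empty, map_one, sub_self]
    exact dvd_zero _
  have h9' : ¬ (9 : ℤ) ∣ Pool.Agent.Y692.QS.nr (pD (fun i => j.symm (π i)) e) - 1 := by
    rw [h2, ← hj, RingEquiv.apply_symm_apply]
    exact h9
  rw [← ker_iff j hj hω h, ← tri_iff j P h1 h9', h2, RingEquiv.apply_symm_apply]

/-- the criterion, as a property of `D` -/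
def CritE {K : Type} [Field K] [NumberField K] (D : 𝓞 K) : Prop :=
  (∃ (ω : 𝓞 K) (n : ℕ) (π : Fin n → 𝓞 K) (e : Fin n → ZMod 3) (χ : Fin n → Fin n → ZMod 3),
    ω ^ 2 + ω + 1 = 0 ∧ IsFactE ω D n π e χ) ∧
  ∀ (ω : 𝓞 K) (n : ℕ) (π : Fin n → 𝓞 K) (e : Fin n → ZMod 3) (χ : Fin n → Fin n → ZMod 3),
    ω ^ 2 + ω + 1 = 0 → IsFactE ω D n π e χ → (Tri D ↔ LapE e χ)

/-- the cubic extension exists -/
lemma ext_ex {K : Type} [Field K] [NumberField K] {D : 𝓞 K}
    (hD : ∀ x : 𝓞 K, x ^ 3 ∣ D → IsUnit x)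
    (hu : ¬ IsUnit D) : ∃ (F : Type) (_ : Field F) (_ : NumberField F) (_ : Algebra K F) (θ : F),
      Module.finrank K F = 3 ∧ θ ^ 3 = algebraMap K F D := by
  obtain ⟨θ, hθ⟩ := IsAlgClosed.exists_pow_nat_eq (algebraMap K (AlgebraicClosure K) D)
    (n := 3) (by norm_num)
  have hirr : Irreducible (Polynomial.X ^ 3 - Polynomial.C (D : K)) := by
    refine (X_pow_sub_C_irreducible_iff_of_prime Nat.prime_three).2 fun b hb => hu ?_
    have h1 : _root_.IsIntegral ℤ b := by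
      have h2 : _root_.IsIntegral ℤ (b ^ 3) := by
        rw [hb]
        exact NumberField.RingOfIntegers.isIntegral_coe D
      exact _root_.IsIntegral.of_pow (by norm_num : 0 < 3) h2
    obtain ⟨b', rfl⟩ : ∃ b' : 𝓞 K, (b' : K) = b := ⟨⟨b, h1⟩, rfl⟩
    have h3 : b' ^ 3 = D := by
      apply NumberField.RingOfIntegers.coe_injective
      rw [map_pow]
      exact hb
    have h4 : IsUnit b' := hD b' ⟨1, by rw [mul_one, h3]⟩
    rw [← h3]
    exact h4.pow 3
  have hmin : minpoly K θ = Polynomial.X ^ 3 - Polynomial.C (D : K) := by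
    symm
    refine minpoly.eq_of_irreducible_of_monic hirr ?_ (Polynomial.monic_X_pow_sub_C _ (by norm_num))
    simp only [map_sub, map_pow, Polynomial.aeval_X, Polynomial.aeval_C, hθ, sub_self]
  have hint : _root_.IsIntegral K θ := Algebra.IsIntegral.isIntegral θ
  have hfd : FiniteDimensional K (IntermediateField.adjoin K {θ}) :=
    IntermediateField.adjoin.finiteDimensional hint
  have hfr : Module.finrank K (IntermediateField.adjoin K {θ}) = 3 := by
    rw [IntermediateField.adjoin.finrank hint, hmin, Polynomial.natDegree_X_pow_sub_C]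
  have hnf : NumberField (IntermediateField.adjoin K {θ}) := by
    have h0 : CharZero (IntermediateField.adjoin K {θ}) :=
      charZero_of_injective_algebraMap (algebraMap K _).injective
    exact { to_charZero := h0, to_finiteDimensional := Module.Finite.trans K _ }
  refine ⟨IntermediateField.adjoin K {θ}, inferInstance, hnf, inferInstance,
    ⟨θ, IntermediateField.mem_adjoin_simple_self K θ⟩, hfr, ?_⟩
  apply Subtype.ext
  exact hθ

end Pool.Agent.R419.KF
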