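import Pool.Agent.Y703.XK.Stm

/-!
# Project KF (helper419): the exact proportion for all cube-free `D` over `ℚ(ω)`

`D` runs over all cube-free primary elements of `ℤ[ω]` whose norm is not `1` modulo `9`.  `S` is the set
of the prime divisors of `D` and `M ⊆ S` the set of those with exponent `2`.  This extends project XK of
helper703 and others (squarefree `D`, `M = ∅`).
-/

set_option autoImplicit false

open scoped Classical

namespace Pool.Agent.R419.KF

open Finset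
open Pool.Agent.Y692.QS (Ei w nr toC)
open Pool.Agent.Y715.T.Rec (cs)
open Pool.Agent.Y715.T.RecG (Pq)
open Pool.Agent.Y699.E (ez nrm QB mem_QB pq_nrm_two)
open Pool.Agent.Y703.CX (jj XX eL zz kk)
open Pool.Agent.Y703.XK (sm la bl)

/-- the exponent of a prime in `D`, modulo `3` -/
noncomputable def wt (M : Finset Ei) (ρ : Ei) : ZMod 3 := if ρ ∈ M then 2 else 1

/-- the kernel of the weighted Laplacian -/
def SolW (M S : Finset Ei) (v : Ei → ZMod 3) : Prop :=
  ∀ π ∈ S, ∑ ρ ∈ S, wt M ρ * cs π ρ * (v ρ - v π) = 0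

/-- the good sets: all solutions are constant -/
def GdW (M S : Finset Ei) : Prop := ∀ v, SolW M S v → ∀ π ∈ S, ∀ ρ ∈ S, v π = v ρ

/-- the sets of primary primes -/
def ClG (S : Finset Ei) : Prop := (∀ π ∈ S, Pq π) ∧ True

/-- the sets with norm at most `X` -/
noncomputable def SG (X : ℕ) : Finset (Finset Ei) :=
  (QB X).powerset.filter fun S => ClG S ∧ ∏ π ∈ S, nrm π ≤ X

/-- the class for a given `M` -/
def ClW (M S : Finset Ei) : Prop :=
  (∀ π ∈ S, Pq π) ∧ M ⊆ S ∧ ((∏ π ∈ S, nrm π) * ∏ π ∈ M, nrm π) % 9 ≠ 1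

/-- the sets of the class with norm at most `X` -/
noncomputable def SW (M : Finset Ei) (X : ℕ) : Finset (Finset Ei) :=
  (QB X).powerset.filter fun S => ClW M S ∧ ∏ π ∈ S, nrm π ≤ X

/-- the regular sets -/
noncomputable def RRW (M : Finset Ei) (X z H k V : ℕ) : Finset (Finset Ei) :=
  (SW M X).filter fun S => Set.InjOn (bl H) (la z S : Set Ei) ∧ S.card ≤ k ∧
    (∏ π ∈ sm z S, nrm π) * ∏ π ∈ la z S, XX H (bl H π) ≤ X ∧
    (sm z S).card + V < (la z S).card

theorem wt_one {M : Finset Ei} {q : Ei} (h : q ∉ M) : wt M q = 1 := by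
  unfold wt
  rw [if_neg h]

theorem wt_ne (M : Finset Ei) (q : Ei) : wt M q ≠ 0 := by
  unfold wt
  split_ifs
  · decide
  · decide

theorem wt_sq (M : Finset Ei) (q : Ei) : wt M q * wt M q = 1 := by
  unfold wt
  split_ifs
  · decide
  · decide

theorem SW_sub (M : Finset Ei) (X : ℕ) : SW M X ⊆ SG X := by
  intro S hS
  unfold SW at hS
  unfold SG
  rw [mem_filter] at hS ⊢
  exact ⟨hS.1, ⟨hS.2.1.1, trivial⟩, hS.2.2⟩

theorem nrm_pos1 {π : Ei} (h : Pq π) : 1 ≤ nrm π := by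
  have := pq_nrm_two h
  omega

theorem prod_ppos {S : Finset Ei} (hS : ∀ q ∈ S, Pq q) : 0 < ∏ p ∈ S, nrm p :=
  Finset.prod_pos fun p hp => nrm_pos1 (hS p hp)

theorem sub_QB {X : ℕ} {S : Finset Ei} (h : ∀ q ∈ S, Pq q) (hX : ∏ π ∈ S, nrm π ≤ X) :
    S ⊆ QB X := by
  intro p hp
  rw [mem_QB]
  have h1 : nrm p ≤ ∏ q ∈ S, nrm q :=
    Finset.single_le_prod' (f := fun q => nrm q) (fun q hq => nrm_pos1 (h q hq)) hp
  exact ⟨h1.trans hX, h p hp⟩

theorem mem_SG {X : ℕ} {S : Finset Ei} : S ∈ SG X ↔ (∀ q ∈ S, Pq q) ∧ ∏ π ∈ S, nrm π ≤ X := by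
  unfold SG
  rw [mem_filter, mem_powerset]
  constructor
  · exact fun h => ⟨h.2.1.1, h.2.2⟩
  · exact fun h => ⟨sub_QB h.1 h.2, ⟨h.1, trivial⟩, h.2⟩

theorem mem_SW {M : Finset Ei} {X : ℕ} {S : Finset Ei} :
    S ∈ SW M X ↔ ClW M S ∧ ∏ π ∈ S, nrm π ≤ X := by
  unfold SW
  rw [mem_filter, mem_powerset]
  constructor
  · exact fun h => h.2
  · exact fun h => ⟨sub_QB h.1.1 h.2, h⟩

end Pool.Agent.R419.KF
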