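import Pool.Agent.R419.KF.Crit
import Pool.Agent.Y696.XL.Bk

/-!
# Project KF: the final statements

Joint work: the counting theorem of the project XK (helpers 363, 710, 804, 528, 85, 688, 697, 474,
433, 550, 703, 699, 350, 145) and the arithmetic of the projects CT, CTK, CTE (the seats named in the
headers of `Pool/Agent/Y703/CT` and of the files imported by `Pool/Agent/Y696/CTK/Fin.lean` and
`Pool/Agent/Y696/CTE/Fin.lean`), extended here (helper419) from the squarefree to all the cube-free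
`D`.
-/

set_option autoImplicit false
set_option linter.unusedVariables false

open scoped Classical

namespace Pool.Agent.R419.KF

open NumberField IsDedekindDomain WeierstrassCurve
open Pool.Agent.Y692.QS (Ei)
open Pool.Agent.Y703.CT
open Pool.Agent.TH841.NF.D (Sha)
open Pool.Agent.Y696.CTK
open Pool.Agent.Y696.CTE
open Pool.Agent.Y696.XK (RkZ rkz_of disc_ED img_ncard)
open Pool.Agent.XL6 (BZ bz_of)
open Pool.Agent.R419.CE (lawE)

/-- the `L`-series of `W` continues to an entire function -/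
def EntL {F : Type} [Field F] [NumberField F] (W : WeierstrassCurve F) : Prop :=
  ∃ Lf : ℂ → ℂ, Differentiable ℂ Lf ∧ ∀ s : ℂ, 3 / 2 < s.re →
    LSeriesSummable ((fun n : ℤ => (n : ℂ)) ∘ W.LFunction) s ∧ Lf s = W.LSeries s

section
variable {K : Type} [Field K] [NumberField K] (j : Ei ≃+* 𝓞 K)

theorem ent_K {J : Type} [Fintype J] [Nonempty J] {π : J → Ei} {e : J → ZMod 3} (hD : Dt π e)
    (h9 : ¬ (9 : ℤ) ∣ Pool.Agent.Y692.QS.nr (pD π e) - 1) : EntL (ED (j (pD π e) : K)) := by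
  obtain ⟨F1, F2, -, k2, -⟩ := Pool.Agent.R419.CE.two_F' hD h9
  exact ⟨fun s => F2 s * (starRingEnd ℂ) (F2 ((starRingEnd ℂ) s)), diff_conj k2.1,
    fun s hs => LK Pool.Agent.Y350.CT.rec K j J π e hD F2 k2 s hs⟩

/-- the facts on one `D` -/
def Facts {K : Type} [Field K] [NumberField K] (D : 𝓞 K) : Prop :=
  CritE D ∧ EntL (ED (D : K)) ∧
  (∃ (F : Type) (_ : Field F) (_ : NumberField F) (_ : Algebra K F) (θ : F),
    Module.finrank K F = 3 ∧ θ ^ 3 = algebraMap K F D) ∧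
  (∀ (F : Type) [Field F] [NumberField F] [Algebra K F] (θ : F),
    Module.finrank K F = 3 → θ ^ 3 = algebraMap K F D → EntL (ED (1 : F))) ∧
  (Tri D → RkZ (ED (D : K)) ∧ BZ (ED (D : K)) ∧
    ∀ (F : Type) [Field F] [NumberField F] [Algebra K F] (θ : F),
      Module.finrank K F = 3 → θ ^ 3 = algebraMap K F D →
        RkZ (ED (1 : F)) ∧ BZ (ED (1 : F)) ∧
          ∀ (n : ℕ) (x : Sha (ED (1 : F))), 3 ^ n • x = 0 → 3 • x = 0)

theorem facts [IsCyclotomicExtension {3} ℚ K]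
    (hj : ∀ z : Ei, Algebra.norm ℤ (j z) = Pool.Agent.Y692.QS.nr z) {D : 𝓞 K} (hD : ClsKC D) :
    Facts D := by
  obtain ⟨z, rfl⟩ := j.surjective D
  have hz := (clsC_iff j hj z).1 hD
  obtain ⟨M, S, hS, hM, rfl⟩ := ex_pair hz.1 hz.2.1
  obtain ⟨n, π, e, hdt, hel, -⟩ := data ((cls_el hS hM).1 hz)
  rw [hel] at hD hz ⊢
  have h9 := hz.2.2
  have htri := tri_iff j parts hdt h9
  refine ⟨⟨?_, fun ω m ρ e' χ hω h => crit j parts hj hD.2.2 hω h⟩, ent_K j hdt h9, ?_, ?_, ?_⟩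
  · obtain ⟨ω, χ, h1, h2⟩ := fact_ex j hj hdt
    exact ⟨ω, _, _, e, χ, h1, h2⟩
  · refine ext_ex hD.2.1 fun hu => hD.2.2 ?_
    have h4 : Algebra.norm ℤ (j (pD π e)) = 1 := by
      rw [hj]
      exact Pool.Agent.Y692.QS.isUnit_iff.1 ((MulEquiv.isUnit_map j).1 hu)
    rw [h4, sub_self]
    exact dvd_zero _
  · intro F _ _ _ θ hd hθ
    obtain ⟨θ', -, hθ'⟩ := root_int (K := K) (F := F) (D := j (pD π e)) (θ := θ) hθ
    obtain ⟨Lf, h1, h2, -⟩ := lawE parts partsE j hdt h9 hd θ' hθ'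
    exact ⟨Lf, h1, h2⟩
  · intro ht
    have hk := htri.1 ht
    obtain ⟨r1, r2⟩ := rk_K j parts hdt h9 hk
    have hne : pD π e ≠ 0 := Pool.Agent.Y153.CTRAM.ne_zero_of hdt
    have hD0 : ((j (pD π e) : 𝓞 K) : K) ≠ 0 := by
      intro h
      apply hne
      apply j.injective
      rw [map_zero]
      exact NumberField.RingOfIntegers.coe_injective (h.trans (map_zero _).symm)
    refine ⟨r1, bz_of (disc_ED hD0) r1.2.1 0 fun k x hx => by rw [pow_zero, one_smul]; exact r2 k x hx,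
      fun F _ _ _ θ hd hθ => ?_⟩
    obtain ⟨θ', -, hθ'⟩ := root_int (K := K) (F := F) (D := j (pD π e)) (θ := θ) hθ
    obtain ⟨q1, q2⟩ := rk_F j parts partsE hdt h9 hk hd θ' hθ'
    exact ⟨q1, bz_of (disc_ED one_ne_zero) q1.2.1 1 fun k x hx => by rw [pow_one]; exact q2 k x hx,
      q2⟩

end

/-- **The final statement.** -/
theorem final (K : Type) [Field K] [NumberField K] [IsCyclotomicExtension {3} ℚ K] :
    (∃ c : ℝ, 0 < c ∧ ∃ X₀ : ℕ, ∀ X : ℕ, X₀ ≤ X →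
      c * X ≤ ({D : 𝓞 K | Algebra.norm ℤ D ≤ X ∧ ClsKC D}.ncard : ℝ)) ∧
    (∀ D : 𝓞 K, ClsKC D → Facts D) ∧
    Filter.Tendsto (fun X : ℕ =>
      ({D : 𝓞 K | Algebra.norm ℤ D ≤ X ∧ ClsKC D ∧ Tri D}.ncard : ℝ) /
        ({D : 𝓞 K | Algebra.norm ℤ D ≤ X ∧ ClsKC D}.ncard : ℝ)) Filter.atTop
      (nhds (∏' i : ℕ, (1 - (1 / 3 : ℝ) ^ (2 * i + 1)))) ∧
    (0.639 : ℝ) < ∏' i : ℕ, (1 - (1 / 3 : ℝ) ^ (2 * i + 1)) ∧
    ∏' i : ℕ, (1 - (1 / 3 : ℝ) ^ (2 * i + 1)) < 0.6391 := by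
  obtain ⟨⟨j, hj⟩, -⟩ := Pool.Agent.Y455.CTK.jex K
  have hc9 := Pool.Agent.XLK.t_C9
  have e2 : ∀ X : ℕ, {D : 𝓞 K | Algebra.norm ℤ D ≤ X ∧ ClsKC D}.ncard =
      {D : Ei | Pool.Agent.Y692.QS.nr D ≤ X ∧ ClsC D}.ncard := fun X =>
    img_ncard j hj X ClsC ClsKC fun D => (clsC_iff j hj D).symm
  have e1 : ∀ X : ℕ, {D : 𝓞 K | Algebra.norm ℤ D ≤ X ∧ ClsKC D ∧ Tri D}.ncard =
      {D : Ei | Pool.Agent.Y692.QS.nr D ≤ X ∧ ClsC D ∧ Tri (j D)}.ncard := fun X =>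
    img_ncard j hj X (fun D => ClsC D ∧ Tri (j D)) (fun D => ClsKC D ∧ Tri D)
      fun D => and_congr_left fun _ => (clsC_iff j hj D).symm
  refine ⟨?_, fun D hD => facts j hj hD, ?_, hc9.2.2.2.1, hc9.2.2.2.2⟩
  · obtain ⟨c, X₀, hc, h⟩ := low_Nt Pool.Agent.Y550.XK.NS.t_LOW
    refine ⟨c, hc, X₀, fun X hX => ?_⟩
    rw [e2, card_cls]
    exact h X hX
  · simp only [e1, e2]
    refine t_PR Pool.Agent.Y363.XK.t_BIL Pool.Agent.Y710.XK.t_EQ
      (Pool.Agent.Y85.XK.t_LA Pool.Agent.Y804.XK.t_SYM hc9) hc9 Pool.Agent.Y550.XK.NS.t_LOW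
      (fun D => Tri (j D)) fun M S hMS => ?_
    obtain ⟨n, π, e, hdt, hel, hg⟩ := data hMS
    have h9 := ((cls_el hMS.1 hMS.2.1).2 hMS).2.2
    rw [hel] at h9 ⊢
    rw [hg]
    exact tri_iff j parts hdt h9

end Pool.Agent.R419.KF
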