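import Pool.Agent.R419.KF.LK
import Pool.Agent.R419.CE.Asm
import Pool.Agent.Y696.XK.Fin

/-!
# Project KF: the rank and the `3`-part of Sha of `y² + D y = x³` over `ℚ(ω)`, `D` cube-free

Adapted from the files `Y696/CTK/Asm.lean` and `Y696/CTK/Crit.lean` (squarefree `D`).
-/

set_option autoImplicit false
set_option linter.unusedVariables false
set_option linter.unusedSectionVars false

open scoped Classical

namespace Pool.Agent.R419.KF

open NumberField IsDedekindDomain WeierstrassCurve WithZero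
open Pool.Agent.Y692.QS (Ei w toC)
open Pool.Agent.Y715.T.Rec (cs nn)
open Pool.Agent.Y715.T.RecG (Pq)
open Pool.Agent.Y703.CT
open Pool.Agent.Y696 (NonsingRed Cur)
open Pool.Agent.Y715.T.Gi Pool.Agent.Y715.T.Nr Pool.Agent.Y715.T.Df Pool.Agent.Y715.T.Ell
open Pool.Agent.TH841.NF.D (Sha)
open Pool.Agent.Y696.CTK
open Pool.Agent.Y696.CTE
open Pool.Agent.Y696.XK (RkZ rkz_of disc_ED)
open Pool.Agent.R419.CE

section
variable {K : Type} [Field K] [NumberField K] (j : Ei ≃+* 𝓞 K)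
variable {J : Type} [Fintype J] [Nonempty J] {π : J → Ei} {e : J → ZMod 3}

/-- the group of points is finite and the `3`-part of Sha trivial exactly when the kernel is small -/
theorem tri_iff (P : Parts) (hD : Dt π e)
    (h9 : ¬ (9 : ℤ) ∣ Pool.Agent.Y692.QS.nr (pD π e) - 1) :
    Tri (j (pD π e)) ↔ Ker π e := by
  have hne : pD π e ≠ 0 := Pool.Agent.Y153.CTRAM.ne_zero_of hD
  constructor
  · rintro ⟨h1, h2⟩
    by_contra hk
    obtain ⟨e', i₀, hi, u, a, Ψ, g, hdata⟩ := P.trf K j _ hne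
    have hT := hdata.1
    have ha := a_ne hD hT
    have hM := P.mwc K j _ hne e' i₀ hi u a Ψ g hdata ha h1
    have hS := P.shc P.plc K j _ hne e' i₀ hi u a Ψ g hdata h2
    have hsel := Pool.Agent.H70CT.t_SHC _ hne i₀ hi u a hT ha hS hM
    exact Pool.Agent.Y363.CT.SELC.t_SELC Pool.Agent.Y319.CT.t_FF Pool.Agent.Y379.CT.t_CUB
      Pool.Agent.Y100.CT.CUB3.t_cub3 Pool.Agent.Y674.CT.t_PT Pool.Agent.Y379.CT.t_RAMC J π _ hD hk
      h9 i₀ hi u a hT hsel
  · intro hk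
    exact ⟨(P.mwt P.trf K j _ hne fun i₀ hi u a hT => (descK hD hk h9 hT).2).1,
      P.sht P.trf K j _ hne fun i₀ hi u a hT => (descK hD hk h9 hT).1⟩

/-- the twist over `K` -/
theorem rk_K (P : Parts) (hD : Dt π e)
    (h9 : ¬ (9 : ℤ) ∣ Pool.Agent.Y692.QS.nr (pD π e) - 1) (hk : Ker π e) :
    RkZ (ED (j (pD π e) : K)) ∧
      ∀ (n : ℕ) (x : Sha (ED (j (pD π e) : K))), 3 ^ n • x = 0 → x = 0 := by
  have hne : pD π e ≠ 0 := Pool.Agent.Y153.CTRAM.ne_zero_of hD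
  obtain ⟨hf, hs⟩ := (tri_iff j P hD h9).2 hk
  refine ⟨?_, hs⟩
  obtain ⟨F, hF, h1⟩ := Pool.Agent.Y696.CTE.val_ne hD hk h9
  have hD0 : ((j (pD π e) : 𝓞 K) : K) ≠ 0 := by
    intro h
    apply hne
    apply j.injective
    rw [map_zero]
    exact NumberField.RingOfIntegers.coe_injective (h.trans (map_zero _).symm)
  refine rkz_of _ (disc_ED hD0) hf (Lf := fun s => F s * (starRingEnd ℂ) (F ((starRingEnd ℂ) s)))
    (diff_conj hF.1) (fun s hs => (LK Pool.Agent.Y350.CT.rec K j J π e hD F hF s hs).2) ?_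
  simp only [map_one]
  exact mul_ne_zero h1 ((map_ne_zero _).2 h1)

/-- the curve over the extension -/
theorem rk_F (P : Parts) (Q : PartsE) [IsCyclotomicExtension {3} ℚ K] (hD : Dt π e)
    (h9 : ¬ (9 : ℤ) ∣ Pool.Agent.Y692.QS.nr (pD π e) - 1) (hk : Ker π e)
    {F : Type} [Field F] [NumberField F] [Algebra K F] (hdeg : Module.finrank K F = 3) (θ : 𝓞 F)
    (hθ : θ ^ 3 = algebraMap (𝓞 K) (𝓞 F) (j (pD π e))) :
    RkZ (ED (1 : F)) ∧ ∀ (n : ℕ) (x : Sha (ED (1 : F))), 3 ^ n • x = 0 → 3 • x = 0 := by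
  obtain ⟨Lf, h1, h2, h3⟩ := lawE P Q j hD h9 hdeg θ hθ
  obtain ⟨h4, h5, h6⟩ := h3 hk
  exact ⟨rkz_of _ (disc_ED one_ne_zero) h5 h1 (fun s hs => (h2 s hs).2) h4, h6⟩

end

end Pool.Agent.R419.KF
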